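import Mathlib
import Pool.Agent.H84.Sec0

namespace Pool.Agent.Results.MP_b0a983_gt.No

open Pool.Agent.H84.Sec0

theorem result : ∃ Y : Set (ℝ × ℝ), IsCompact Y ∧ IsConnected Y ∧
    (∀ y : Y, IndAtLE y 2 ∧ ¬ IndAtLE y 1) ∧
    ∃ g : Y → unitInterval, Continuous g ∧ Function.Surjective g ∧
      ∀ K : Set Y, IsClosed K → g '' K = Set.univ → ¬ IsTotallyDisconnected K :=
  ⟨X, X_cpt, X_conn, fun y => ⟨upper X y, lower y⟩, f, f_cont, f_surj, fun _ => no_sec⟩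

end Pool.Agent.Results.MP_b0a983_gt.No
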